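import Pool.Agent.H20.RT.Stmts

set_option autoImplicit false

namespace Pool.RT

theorem COL_thm (h1 : C1Stmt) (h2 : C2Stmt) (h3 : C3Stmt) (h4 : C4Stmt) (h5 : C5Stmt) :
    COLStmt := by
  intro a t
  have e1 : T (Wd (a + 1) (31 * a + 30 + t) 0 0 0 0 0 0 0) =
      Wd 0 0 (2 * a + 2) (30 * a + 29 + t) 0 0 0 0 0 := by
    have h := h1 (a + 1) (30 * a + 29 + t)
    have u1 : a + 1 + (30 * a + 29 + t) = 31 * a + 30 + t := by ring
    have u2 : 2 * (a + 1) = 2 * a + 2 := by ring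
    rwa [u1, u2] at h
  have e2 : T (Wd 0 0 (2 * a + 2) (30 * a + 29 + t) 0 0 0 0 0) =
      Wd 0 0 0 0 0 0 (4 * a + 4) (28 * a + 27 + t) 0 := by
    have h := h2 (2 * a + 2) (28 * a + 27 + t)
    have u1 : 2 * a + 2 + (28 * a + 27 + t) = 30 * a + 29 + t := by ring
    have u2 : 2 * (2 * a + 2) = 4 * a + 4 := by ring
    rwa [u1, u2] at h
  have e3 : T (Wd 0 0 0 0 0 0 (4 * a + 4) (28 * a + 27 + t) 0) =
      Wd 1 0 0 0 1 (8 * a + 7) (24 * a + 23 + t) 0 0 := by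
    have h := h3 (4 * a + 3) (24 * a + 23 + t)
    have u1 : 4 * a + 3 + 1 + (24 * a + 23 + t) = 28 * a + 27 + t := by ring
    have u2 : 2 * (4 * a + 3) + 1 = 8 * a + 7 := by ring
    rwa [u1, u2] at h
  have e4 : T (Wd 1 0 0 0 1 (8 * a + 7) (24 * a + 23 + t) 0 0) =
      Wd 0 1 1 (16 * a + 14) (16 * a + 14 + t) 0 0 1 1 := by
    have h := h4 (8 * a + 7) (16 * a + 14 + t)
    have u1 : 8 * a + 7 + 2 + (16 * a + 14 + t) = 24 * a + 23 + t := by ring
    have u2 : 2 * (8 * a + 7) = 16 * a + 14 := by ring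
    rwa [u1, u2] at h
  have e5 := h5 (16 * a + 14) t
  rw [Function.iterate_succ_apply, Function.iterate_succ_apply, Function.iterate_succ_apply,
    Function.iterate_succ_apply, Function.iterate_succ_apply, Function.iterate_zero_apply, e1, e2,
    e3, e4, e5]

end Pool.RT
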